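import Pool.Agent.H308R2.ZS.Stubs

/-!
The vacuum is cyclic (task CYC).
-/

set_option autoImplicit false

open scoped ComplexConjugate Kronecker Matrix.Norms.L2Operator

noncomputable section

namespace Pool.Agent.H308R2.ZS.T_CYC

open Pool.Agent.H923R2.FP Pool.Agent.H923R2.FZ Pool.Agent.H308R2.ZS

open Classical in
theorem dlt_apply {ι : Type} (a b : ι) : (dlt a : L2 ι) b = if b = a then 1 else 0 := by
  unfold dlt
  rw [lp.single_apply]
  by_cases h : b = a
  · subst h
    rw [Pi.single_eq_same, if_pos rfl]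
  · rw [Pi.single_eq_of_ne h, if_neg h]

/-- a closed subspace containing all basis vectors is everything -/
theorem top_of_dlt {ι : Type} (C : Submodule ℂ (L2 ι)) (hC : IsClosed (C : Set (L2 ι)))
    (h : ∀ a, dlt a ∈ C) (u : L2 ι) : u ∈ C := by
  classical
  have h1 := lp.hasSum_single (p := 2) (by norm_num) u
  refine hC.mem_of_tendsto h1 (Filter.Eventually.of_forall (fun s => ?_))
  apply Submodule.sum_mem
  intro j _
  have h2 : lp.single 2 j (u j) = (u j) • (dlt j : L2 ι) := by
    refine lp.ext (funext fun k => ?_)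
    rw [lp.coeFn_smul, Pi.smul_apply, dlt_apply, lp.single_apply]
    by_cases hk : k = j
    · subst hk
      rw [Pi.single_eq_same, if_pos rfl]
      simp
    · rw [Pi.single_eq_of_ne hk, if_neg hk]
      simp
  rw [h2]
  exact C.smul_mem _ (h j)

/-- norm of a vector supported on the range of an injective map -/
theorem norm_of_supp {ι W : Type} (f : ι → W) (hf : Function.Injective f) (v : L2 W) (r : L2 ι)
    (h1 : ∀ a, v (f a) = r a) (h2 : ∀ w, w ∉ Set.range f → v w = 0) : ‖v‖ = ‖r‖ := by
  have hp : 0 < (2 : ENNReal).toReal := by norm_num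
  have a1 := lp.norm_rpow_eq_tsum hp v
  have a2 := lp.norm_rpow_eq_tsum hp r
  have a3 : ∑' i, ‖v i‖ ^ (2 : ENNReal).toReal = ∑' i, ‖r i‖ ^ (2 : ENNReal).toReal := by
    rw [← hf.tsum_eq (f := fun w => ‖v w‖ ^ (2 : ENNReal).toReal)]
    · refine tsum_congr (fun a => ?_)
      rw [h1]
    · intro w hw
      by_contra hcon
      apply hw
      show ‖v w‖ ^ (2 : ENNReal).toReal = 0
      rw [h2 w hcon, norm_zero, Real.zero_rpow hp.ne']
  have a4 : ‖v‖ ^ (2 : ENNReal).toReal = ‖r‖ ^ (2 : ENNReal).toReal := by rw [a1, a2, a3]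
  exact (Real.rpow_left_inj (norm_nonneg _) (norm_nonneg _) hp.ne').1 a4

theorem t_CYC : S_CYC := by
  intro J D _ t ι o π β e H u ε hε
  classical
  set A : StarSubalgebra ℂ (L2 (Wd ι o) →L[ℂ] L2 (Wd ι o)) :=
    StarAlgebra.adjoin ℂ (⋃ j, Set.range (e j)) with hA
  set Ω : L2 (Wd ι o) := dlt (em ι o) with hΩ
  -- the orbit of the vacuum
  let ev : (L2 (Wd ι o) →L[ℂ] L2 (Wd ι o)) →ₗ[ℂ] L2 (Wd ι o) :=
    { toFun := fun X => X Ω
      map_add' := fun X Y => rfl
      map_smul' := fun c X => rfl }
  let S : Submodule ℂ (L2 (Wd ι o)) := A.toSubalgebra.toSubmodule.map ev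
  have hS : ∀ X ∈ A, X Ω ∈ S := fun X hX => ⟨X, hX, rfl⟩
  let C : Submodule ℂ (L2 (Wd ι o)) := S.topologicalClosure
  have hCcl : IsClosed (C : Set (L2 (Wd ι o))) := Submodule.isClosed_topologicalClosure S
  have heA : ∀ (j : J) (x : D j), e j x ∈ A := fun j x =>
    StarAlgebra.subset_adjoin ℂ _ (Set.mem_iUnion.2 ⟨j, x, rfl⟩)
  have hinv : ∀ (j : J) (x : D j) (v : L2 (Wd ι o)), v ∈ C → e j x v ∈ C := by
    intro j x v hv
    have h1 : S.topologicalClosure ≤ C.comap (e j x).toLinearMap := by
      apply Submodule.topologicalClosure_minimal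
      · rintro _ ⟨X, hX, rfl⟩
        refine S.le_topologicalClosure ?_
        exact hS (e j x * X) (A.mul_mem (heA j x) hX)
      · exact hCcl.preimage (e j x).continuous
    exact h1 hv
  -- all words
  have hw : ∀ (l : List (Σ j, ι j)) (hl : (∀ z ∈ l, z.2 ≠ o z.1) ∧ l.IsChain fun x y => x.1 ≠ y.1),
      (dlt (⟨l, hl⟩ : Wd ι o) : L2 (Wd ι o)) ∈ C := by
    intro l
    induction l with
    | nil =>
      intro hl
      have h1 : (1 : L2 (Wd ι o) →L[ℂ] L2 (Wd ι o)) Ω ∈ S := hS 1 A.one_mem
      exact S.le_topologicalClosure h1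
    | cons z l ih =>
      intro hl
      obtain ⟨j, a⟩ := z
      have ha : a ≠ o j := hl.1 ⟨j, a⟩ (by simp)
      have hl' : (∀ z ∈ l, z.2 ≠ o z.1) ∧ l.IsChain fun x y => x.1 ≠ y.1 :=
        ⟨fun z hz => hl.1 z (List.mem_cons_of_mem _ hz), hl.2.tail⟩
      have hnh : NH j (⟨l, hl'⟩ : Wd ι o) := by
        intro z hz
        have := hl.2
        rw [List.isChain_cons] at this
        exact (this.1 z hz).symm
      set k : {w : Wd ι o // NH j w} := ⟨⟨l, hl'⟩, hnh⟩ with hk
      have b0 : (β j).symm (o j, k) = (⟨l, hl'⟩ : Wd ι o) := (H.bt j).b0 k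
      have b1 : (β j).symm (a, k) = (⟨⟨j, a⟩ :: l, hl⟩ : Wd ι o) :=
        Subtype.ext ((H.bt j).b1 a ha k)
      have hin := ih hl'
      have hclos : (dlt (⟨⟨j, a⟩ :: l, hl⟩ : Wd ι o) : L2 (Wd ι o)) ∈
          closure (C : Set (L2 (Wd ι o))) := by
        rw [Metric.mem_closure_iff]
        intro δ hδ
        obtain ⟨x, hx⟩ := H.den j (dlt a) δ hδ
        refine ⟨e j x (dlt (⟨l, hl'⟩ : Wd ι o)), hinv j x _ hin, ?_⟩
        rw [dist_comm, dist_eq_norm]
        have hsl1 : ∀ a', e j x (dlt (⟨l, hl'⟩ : Wd ι o)) ((β j).symm (a', k)) =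
            π j x (dlt (o j)) a' := by
          refine H.sl j x (dlt (⟨l, hl'⟩ : Wd ι o)) k (dlt (o j)) (fun a' => ?_)
          rw [dlt_apply, dlt_apply, ← b0]
          by_cases h : a' = o j
          · subst h
            rw [if_pos rfl, if_pos rfl]
          · rw [if_neg h, if_neg]
            intro h'
            have := (β j).symm.injective h'
            exact h (Prod.ext_iff.1 this).1
        have hsl2 : ∀ k', k' ≠ k → ∀ a', e j x (dlt (⟨l, hl'⟩ : Wd ι o)) ((β j).symm (a', k')) =
            0 := by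
          intro k' hk' a'
          have := H.sl j x (dlt (⟨l, hl'⟩ : Wd ι o)) k' 0 (fun a'' => by
            rw [dlt_apply, ← b0, if_neg]
            · rfl
            · intro h'
              have := (β j).symm.injective h'
              exact hk' (Prod.ext_iff.1 this).2) a'
          rw [this, map_zero]
          rfl
        have hnorm : ‖e j x (dlt (⟨l, hl'⟩ : Wd ι o)) -
            (dlt (⟨⟨j, a⟩ :: l, hl⟩ : Wd ι o) : L2 (Wd ι o))‖ =
            ‖π j x (dlt (o j)) - dlt a‖ := by
          refine norm_of_supp (fun a' => (β j).symm (a', k)) ?_ _ _ ?_ ?_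
          · intro a1 a2 h12
            have := (β j).symm.injective h12
            exact (Prod.ext_iff.1 this).1
          · intro a'
            rw [lp.coeFn_sub, lp.coeFn_sub, Pi.sub_apply, Pi.sub_apply]
            show _ = _
            rw [hsl1, ← b1, dlt_apply, dlt_apply]
            congr 1
            by_cases h : a' = a
            · subst h
              rw [if_pos rfl, if_pos rfl]
            · rw [if_neg h, if_neg]
              intro h'
              have := (β j).symm.injective h'
              exact h (Prod.ext_iff.1 this).1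
          · intro w hw
            obtain ⟨⟨a', k'⟩, rfl⟩ := (β j).symm.surjective w
            have hk' : k' ≠ k := by
              rintro rfl
              exact hw ⟨a', rfl⟩
            rw [lp.coeFn_sub, Pi.sub_apply, hsl2 k' hk' a', ← b1, dlt_apply, if_neg, sub_zero]
            intro h'
            have := (β j).symm.injective h'
            exact hk' (Prod.ext_iff.1 this).2
        rw [hnorm]
        exact hx
      rwa [hCcl.closure_eq] at hclos
  have hall : u ∈ C := top_of_dlt C hCcl (fun w => hw w.1 w.2) u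
  have hcl : u ∈ closure (S : Set (L2 (Wd ι o))) := hall
  rw [Metric.mem_closure_iff] at hcl
  obtain ⟨v, hv, hd⟩ := hcl ε hε
  obtain ⟨X, hX, rfl⟩ := hv
  refine ⟨X, hX, ?_⟩
  rw [dist_comm, dist_eq_norm] at hd
  exact hd

end Pool.Agent.H308R2.ZS.T_CYC
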